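import Pool.Agent.Helper79.GL4.GoalsB

/-!
# MP_27a5f8_al, packet SP4 (helper12): the spread case with `m ≥ 3a` is impossible
-/

set_option linter.unusedVariables false

namespace GL4.H12

open Module Submodule

/-- A finite field extension of degree at least `3` of a finite field contains an element of
degree at least `3`. -/
lemma no_quad (F E : Type) [Field F] [Finite F] [Field E] [Algebra F E] [FiniteDimensional F E]
    (h3 : 3 ≤ finrank F E)
    (hq : ∀ t : E, ∃ p : Polynomial F, p ≠ 0 ∧ p.natDegree ≤ 2 ∧ Polynomial.aeval t p = 0) :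
    False := by
  haveI : Finite E := Module.finite_of_finite F
  obtain ⟨α, hα⟩ := Field.exists_primitive_element_of_finite_top F E
  have hdeg := (Field.primitive_element_iff_minpoly_natDegree_eq F α).mp hα
  obtain ⟨p, hp0, hp2, hp⟩ := hq α
  have h1 := minpoly.degree_le_of_ne_zero F α hp0 hp
  have h2 := Polynomial.natDegree_le_natDegree h1
  omega

/-- The same for a commutative subalgebra with inverses. -/
lemma no_quad_sub (F M : Type) [Field F] [Finite F] [AddCommGroup M] [Module F M]
    [FiniteDimensional F M] (Th : Subalgebra F (Module.End F M))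
    (hc : ∀ s ∈ Th, ∀ t ∈ Th, s * t = t * s) (hi : ∀ t ∈ Th, t ≠ 0 → ∃ s ∈ Th, s * t = 1)
    (hne : (1 : Module.End F M) ≠ 0)
    (h3 : 3 ≤ finrank F Th)
    (hq : ∀ t ∈ Th, ∃ s r q : F, ¬ (s = 0 ∧ r = 0 ∧ q = 0) ∧ s • (t * t) + r • t + q • 1 = 0) :
    False := by
  have hf : IsField Th := by
    refine ⟨⟨0, 1, ?_⟩, ?_, ?_⟩
    · intro h; apply hne; exact (congrArg Subtype.val h).symm
    · intro s t; exact Subtype.ext (hc _ s.2 _ t.2)
    · intro t ht
      obtain ⟨s, hs, hst⟩ := hi t.1 t.2 (fun h => ht (Subtype.ext h))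
      refine ⟨⟨s, hs⟩, Subtype.ext ?_⟩
      change t.1 * s = 1
      rw [hc _ t.2 _ hs, hst]
  letI : Field Th := hf.toField
  refine no_quad F Th h3 ?_
  intro t
  obtain ⟨s, r, q, h0, h⟩ := hq t.1 t.2
  refine ⟨Polynomial.C s * Polynomial.X ^ 2 + Polynomial.C r * Polynomial.X + Polynomial.C q,
    ?_, ?_, ?_⟩
  · intro hp
    apply h0
    have c2 := congrArg (fun p => Polynomial.coeff p 2) hp
    have c1 := congrArg (fun p => Polynomial.coeff p 1) hp
    have c0 := congrArg (fun p => Polynomial.coeff p 0) hp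
    simp [Polynomial.coeff_X, Polynomial.coeff_C] at c2 c1 c0
    exact ⟨c2, c1, c0⟩
  · exact Polynomial.natDegree_quadratic_le
  · have h' : s • (t * t) + r • t + q • (1 : Th) = 0 := Subtype.ext h
    simp only [map_add, map_mul, Polynomial.aeval_C, Polynomial.aeval_X, map_pow]
    rw [← h', Algebra.smul_def, Algebra.smul_def, Algebra.smul_def, mul_one, pow_two]

end GL4.H12
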